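import Pool.Agent.R207.AC4

set_option autoImplicit false

/-! # MP_ac8703: solutions below the first eigenvalue need not be non-negative

Question 1 has the answer NO, in the unit ball of every dimension `n ≥ 2`, with `μ = 1`, smooth
compactly supported `c, h`, and with `λ / γ_1` as small as one likes.
-/

namespace Pool.Agent.Results.MP_ac8703_an.NegativeSolution

open MeasureTheory Set
open scoped ContDiff
open Pool.Agent.R207.QC (E)
open Pool.Agent.R207.AC (B IsSol firstEigenvalue IsEigenvalue)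

/-- For every dimension `n ≥ 2` and every `ε > 0` there are `c, h, u₀ ∈ C_c^∞(B)` and
`u ∈ C^∞(ℝⁿ)`, `u = 0` on the unit sphere (`B` is the open unit ball), with `c ≥ 0`, `c ≢ 0`,
`u₀ ≥ 0`, `c u₀ ≢ 0`, such that `u₀` solves `-Δ u₀ = |∇ u₀|² + h` (problem `P_0`), `u` solves
`-Δ u = c u + |∇ u|² + h` (problem `P_1`), `λ = 1` is less than `ε γ_1`, and `u(0) < 0`. -/
theorem result (n : ℕ) (hn : 2 ≤ n) (ε : ℝ) (hε : 0 < ε) :
    ∃ c h u₀ u : E n → ℝ,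
      (ContDiff ℝ ∞ c ∧ HasCompactSupport c ∧ tsupport c ⊆ B n) ∧
      (ContDiff ℝ ∞ h ∧ HasCompactSupport h ∧ tsupport h ⊆ B n) ∧
      (ContDiff ℝ ∞ u₀ ∧ HasCompactSupport u₀ ∧ tsupport u₀ ⊆ B n) ∧
      (ContDiff ℝ ∞ u ∧ ∀ x, ‖x‖ = 1 → u x = 0) ∧
      (∀ x, 0 ≤ c x) ∧ (∃ x ∈ B n, 0 < c x) ∧
      (∀ x, 0 ≤ u₀ x) ∧ (∃ x ∈ B n, 0 < c x * u₀ x) ∧
      IsSol (B n) c (fun _ => 1) h 0 u₀ ∧
      IsSol (B n) c (fun _ => 1) h 1 u ∧
      1 < ε * firstEigenvalue (B n) c ∧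
      (∀ γ, IsEigenvalue (B n) c γ → 1 < ε * γ) ∧
      u 0 < 0 :=
  Pool.Agent.R207.AC.main (by omega) hε

end Pool.Agent.Results.MP_ac8703_an.NegativeSolution
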